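import Pool.Agent.Helper29.UG.Props
import Mathlib.Analysis.CStarAlgebra.Spectrum
import Mathlib.Analysis.Normed.Algebra.GelfandFormula
import Mathlib.Analysis.CStarAlgebra.GelfandDuality

/-!
# MP_b55b7c_an: a character of a commutative corner
-/

open scoped ENNReal NNReal InnerProductSpace ComplexOrder
open Filter Topology

attribute [-instance] CStarMatrix.instAlgebra CStarMatrix.instModule CStarMatrix.instSMul
  CStarMatrix.instMulAction CStarMatrix.instDistribMulAction

noncomputable section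
namespace RC
universe u

/-- A commutative closed subalgebra containing a projection `f ≠ 0` has a character with value
`1` at `f`. -/
theorem h60_char {E : Type u} [NormedRing E] [NormedAlgebra ℂ E] [CompleteSpace E]
    (M : Subalgebra ℂ E) (hM : IsClosed (M : Set E)) (hc : ∀ x ∈ M, ∀ y ∈ M, x * y = y * x)
    (f : E) (hf : f ∈ M) (hff : f * f = f) (hf0 : f ≠ 0) :
    ∃ ω : M →ₐ[ℂ] ℂ, ω ⟨f, hf⟩ = 1 := by
  let I1 : NormedCommRing M :=
    { (inferInstance : NormedRing M) with
      mul_comm := fun x y => Subtype.ext (hc x x.2 y y.2) }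
  have : CompleteSpace M := hM.completeSpace_coe
  have h1 : (1 : ℂ) ∈ spectrum ℂ (⟨f, hf⟩ : M) := by
    rw [spectrum.mem_iff]
    intro hu
    have h2 : (algebraMap ℂ M 1 - ⟨f, hf⟩) * (⟨f, hf⟩ : M) = 0 := by
      apply Subtype.ext
      simp [sub_mul, hff]
    have h3 := (hu.mul_right_eq_zero).1 h2
    exact hf0 (congrArg Subtype.val h3)
  obtain ⟨φ, hφ⟩ := WeakDual.CharacterSpace.mem_spectrum_iff_exists.1 h1
  exact ⟨WeakDual.CharacterSpace.toAlgHom φ, hφ⟩

theorem charP_h60 : CharP.{u} := by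
  intro H _ _ _ S hS f hf hp hf0 hcomm
  set T : Set (H →L[ℂ] H) := {z | ∃ x ∈ S.centralizer, z = f * x * f} with hT
  have hff : f * f = f := hp.isIdempotentElem
  have hTc : ∀ z ∈ T, ∀ w ∈ T, z * w = w * z := by
    rintro _ ⟨x, hx, rfl⟩ _ ⟨y, hy, rfl⟩
    have := hcomm x hx y hy
    calc f * x * f * (f * y * f) = f * x * (f * f) * y * f := by noncomm_ring
      _ = f * y * (f * f) * x * f := by rw [hff, this]
      _ = f * y * f * (f * x * f) := by noncomm_ring
  set M : Subalgebra ℂ (H →L[ℂ] H) := Subalgebra.centralizer ℂ (T.centralizer) with hM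
  have hTM : ∀ z ∈ T, z ∈ M := by
    intro z hz
    rw [hM, Subalgebra.mem_centralizer_iff]
    intro w hw
    exact (hw z hz).symm
  have hMT : ∀ z ∈ M, z ∈ T.centralizer := by
    intro z hz w hw
    rw [hM, Subalgebra.mem_centralizer_iff] at hz
    exact hz w (fun v hv => hTc v hv w hw)
  have hc : ∀ x ∈ M, ∀ y ∈ M, x * y = y * x := by
    intro x hx y hy
    rw [hM, Subalgebra.mem_centralizer_iff] at hy
    exact hy x (hMT x hx)
  have hcl : IsClosed (M : Set (H →L[ℂ] H)) := by
    rw [hM, Subalgebra.coe_centralizer]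
    exact Set.isClosed_centralizer _
  have h1 : (1 : H →L[ℂ] H) ∈ S.centralizer := Set.one_mem_centralizer
  have hfT : f ∈ T := ⟨1, h1, by rw [mul_one, hff]⟩
  obtain ⟨ω₁, hω⟩ := h60_char M hcl hc f (hTM f hfT) hff hf0
  classical
  have hmem : ∀ x ∈ S.centralizer, f * x * f ∈ M := fun x hx => hTM _ ⟨x, hx, rfl⟩
  let ω : (H →L[ℂ] H) → ℂ := fun x => if h : f * x * f ∈ M then ω₁ ⟨f * x * f, h⟩ else 0
  have hω' : ∀ x (h : f * x * f ∈ M), ω x = ω₁ ⟨f * x * f, h⟩ := fun x h => dif_pos h
  refine ⟨ω, ?_, ?_, ?_⟩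
  · rw [hω' 1 (hmem 1 h1), ← hω]
    congr 1
    apply Subtype.ext
    change f * 1 * f = f
    rw [mul_one, hff]
  · intro x hx y hy
    have hxy : x + y ∈ S.centralizer := Set.add_mem_centralizer hx hy
    have hxfy : x * f * y ∈ S.centralizer :=
      Set.mul_mem_centralizer (Set.mul_mem_centralizer hx hf) hy
    constructor
    · rw [hω' _ (hmem _ hxy), hω' _ (hmem _ hx), hω' _ (hmem _ hy), ← map_add]
      congr 1
      apply Subtype.ext
      change f * (x + y) * f = f * x * f + f * y * f
      rw [mul_add, add_mul]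
    · rw [hω' _ (hmem _ hxfy), hω' _ (hmem _ hx), hω' _ (hmem _ hy), ← map_mul]
      congr 1
      apply Subtype.ext
      change f * (x * f * y) * f = f * x * f * (f * y * f)
      calc f * (x * f * y) * f = f * x * f * y * f := by noncomm_ring
        _ = f * x * (f * f) * y * f := by rw [hff]
        _ = f * x * f * (f * y * f) := by noncomm_ring
  · intro c x hx
    have hcx : c • x ∈ S.centralizer := by
      intro s hs
      rw [mul_smul_comm, smul_mul_assoc, hx s hs]
    have e : (⟨f * (c • x) * f, hmem _ hcx⟩ : M) = c • (⟨f * x * f, hmem _ hx⟩ : M) := by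
      apply Subtype.ext
      change f * (c • x) * f = c • (f * x * f)
      rw [mul_smul_comm, smul_mul_assoc]
    rw [hω' _ (hmem _ hcx), hω' _ (hmem _ hx), e, map_smul, smul_eq_mul]

end RC
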